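import Mathlib

/-!
# Separation of varieties from real linear subspaces of `ℂⁿ`

For a real linear subspace `K` of `ℂⁿ` and an exponent `N > 0`, every nonempty variety `V ≠ ℂⁿ`
staying polynomially away from `K` with exponent `N` can be separated from `K` by an algebraic
hypersurface if and only if `K` contains no complex line or `dim_ℝ K / (K ∩ i K) ≤ 1`.  In particular
(Q1), and hence (Q2), fails for real linear subspaces `K` in every dimension `n ≥ 3` and for every
exponent `N > 0`, e.g. for `K = ℂ × ℝ × ℝ`.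

* Failure: if `e, i e ∈ K`, `e ≠ 0`, and `f, g ∈ K` are independent modulo `K ∩ i K`, take
  `V = {ζ⁻ᵏ e + ζ f + i ζ g : ζ ≠ 0}`.  A polynomial without zeros on `K` is constant along `ℂ e` on
  `K`, hence everywhere on the span of `e, f, g`, so if it vanishes on `V` it vanishes at `0 ∈ K`.
* Totally real `K`: `∑ p p*`.
* `dim K / (K ∩ i K) ≤ 1`: a coordinate `w` on the span of `K` takes no real value on `V`, and is
  algebraic on `V` by the uncountability of `ℝ`; Nullstellensatz.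
-/

set_option autoImplicit false

open Set Metric MvPolynomial

namespace Pool.Agent.Results.MP_c229cb_an.RealSubspaces

/-- `ℂⁿ` with the Euclidean norm. -/
abbrev Cn (n : ℕ) := EuclideanSpace ℂ (Fin n)

/-- The zero set of a polynomial. -/
def Zero {n : ℕ} (P : MvPolynomial (Fin n) ℂ) : Set (Cn n) :=
  {z | MvPolynomial.eval (fun i => z i) P = 0}

/-- `V` is an algebraic variety: the common zero set of finitely many polynomials. -/
def IsVariety {n : ℕ} (V : Set (Cn n)) : Prop :=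
  ∃ s : Finset (MvPolynomial (Fin n) ℂ), V = {z | ∀ P ∈ s, z ∈ Zero P}

/-- `A` stays polynomially away from `K` with exponent `N`. -/
def StaysAway {n : ℕ} (A K : Set (Cn n)) (N : ℝ) : Prop :=
  ∃ c : ℝ, 0 < c ∧ ∀ z ∈ A, c ≤ infDist z K * (1 + ‖z‖) ^ N

/-- Q1 for the set `K` and the exponent `N`: every nonempty variety `V ≠ ℂⁿ` staying polynomially
away from `K` with exponent `N` is contained in an algebraic hypersurface `{P = 0}`, `P` not
constant, disjoint from `K`. -/
def SeparationHolds {n : ℕ} (K : Set (Cn n)) (N : ℝ) : Prop :=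
  ∀ V : Set (Cn n), IsVariety V → V.Nonempty → V ≠ univ → StaysAway V K N →
    ∃ P : MvPolynomial (Fin n) ℂ, (∀ c : ℂ, P ≠ MvPolynomial.C c) ∧ V ⊆ Zero P ∧
      Zero P ∩ K = ∅

section algebra

variable {n : ℕ}

/-- the value at a point -/
noncomputable abbrev ev (z : Cn n) (P : MvPolynomial (Fin n) ℂ) : ℂ := eval (fun i => z i) P

lemma ev_add (z : Cn n) (P Q : MvPolynomial (Fin n) ℂ) : ev z (P + Q) = ev z P + ev z Q :=
  map_add _ _ _

lemma ev_sub (z : Cn n) (P Q : MvPolynomial (Fin n) ℂ) : ev z (P - Q) = ev z P - ev z Q :=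
  map_sub _ _ _

lemma ev_mul (z : Cn n) (P Q : MvPolynomial (Fin n) ℂ) : ev z (P * Q) = ev z P * ev z Q :=
  map_mul _ _ _

/-- the polynomial of a linear functional -/
noncomputable def lp (l : Cn n →ₗ[ℂ] ℂ) : MvPolynomial (Fin n) ℂ :=
  ∑ i, C (l (EuclideanSpace.single i 1)) * X i

lemma expand (z : Cn n) : z = ∑ i, z i • EuclideanSpace.single i (1 : ℂ) := by
  ext j
  simp [Finset.sum_apply, Pi.single_apply]

lemma ev_lp (l : Cn n →ₗ[ℂ] ℂ) (z : Cn n) : ev z (lp l) = l z := by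
  conv_rhs => rw [expand z]
  simp [lp, ev, mul_comm]

lemma eq_top_of_no_zero (J : Ideal (MvPolynomial (Fin n) ℂ))
    (h : ∀ z : Cn n, ∃ p ∈ J, ev z p ≠ 0) : J = ⊤ := by
  have hz : zeroLocus ℂ J = ∅ := by
    ext x
    simp only [mem_zeroLocus_iff, mem_empty_iff_false, iff_false, not_forall]
    obtain ⟨p, hp, hne⟩ := h (WithLp.toLp 2 x)
    refine ⟨p, hp, ?_⟩
    simpa [ev, MvPolynomial.aeval_eq_eval] using hne
  have h2 := vanishingIdeal_zeroLocus_eq_radical (K := ℂ) J
  rw [hz, vanishingIdeal_empty] at h2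
  exact Ideal.radical_eq_top.1 h2.symm

/-- An element of a finitely generated algebra all of whose real translates are invertible is a zero
of a polynomial without real roots. -/
lemma exists_poly (J : Ideal (MvPolynomial (Fin n) ℂ)) (w : MvPolynomial (Fin n) ℂ)
    (h : ∀ r : ℝ, J ⊔ Ideal.span {w - C (r : ℂ)} = ⊤) :
    ∃ q : Polynomial ℂ, (∀ r : ℝ, q.eval (r : ℂ) ≠ 0) ∧ Polynomial.aeval w q ∈ J := by
  classical
  have hu : ∀ r : ℝ, ∃ u : MvPolynomial (Fin n) ℂ, u * (w - C (r : ℂ)) - 1 ∈ J := by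
    intro r
    have h1 : (1 : MvPolynomial (Fin n) ℂ) ∈ J ⊔ Ideal.span {w - C (r : ℂ)} := by
      rw [h r]; trivial
    obtain ⟨j, hj, y, hy, hjy⟩ := Submodule.mem_sup.1 h1
    obtain ⟨a, rfl⟩ := Ideal.mem_span_singleton'.1 hy
    refine ⟨a, ?_⟩
    have : a * (w - C (r : ℂ)) - 1 = -j := by rw [← hjy]; ring
    rw [this]
    exact J.neg_mem hj
  choose u hu using hu
  -- some nonzero polynomial
  have h1 : ∃ q : Polynomial ℂ, q ≠ 0 ∧ Polynomial.aeval w q ∈ J := by
    by_contra hcon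
    push Not at hcon
    have hli : LinearIndependent ℂ
        (fun r : ℝ => (Ideal.Quotient.mk J (u r) : MvPolynomial (Fin n) ℂ ⧸ J)) := by
      rw [linearIndependent_iff']
      intro s g hg r0 hr0
      set q : Polynomial ℂ := ∑ r ∈ s, Polynomial.C (g r) *
        ∏ r' ∈ s.erase r, (Polynomial.X - Polynomial.C (r' : ℂ)) with hq
      have hqJ : Polynomial.aeval w q ∈ J := by
        rw [← Ideal.Quotient.eq_zero_iff_mem]
        have h2 : ∀ r ∈ s, (Ideal.Quotient.mk J) ((Polynomial.aeval w) (Polynomial.C (g r) *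
            ∏ r' ∈ s.erase r, (Polynomial.X - Polynomial.C (r' : ℂ)))) =
            (Ideal.Quotient.mk J) (∏ r' ∈ s, (w - C (r' : ℂ))) *
              (g r • (Ideal.Quotient.mk J) (u r)) := by
          intro r hr
          have h3 : (Ideal.Quotient.mk J) (u r * (w - C (r : ℂ))) = 1 := by
            have := Ideal.Quotient.eq_zero_iff_mem.2 (hu r)
            rw [map_sub, map_one, sub_eq_zero] at this
            exact this
          have h9 : g r • (Ideal.Quotient.mk J) (u r) = (Ideal.Quotient.mk J) (C (g r) * u r) := by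
            rw [← MvPolynomial.smul_eq_C_mul]
            rfl
          rw [← Finset.mul_prod_erase s _ hr, map_mul, Polynomial.aeval_C, map_prod, h9,
            MvPolynomial.algebraMap_eq]
          have h4 : (∏ x ∈ s.erase r, (Polynomial.aeval w)
              (Polynomial.X - Polynomial.C (x : ℂ))) = ∏ x ∈ s.erase r, (w - C (x : ℂ)) := by
            refine Finset.prod_congr rfl fun x _ => ?_
            simp [MvPolynomial.algebraMap_eq]
          rw [h4]
          rw [map_mul] at h3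
          rw [map_mul, map_mul, map_mul]
          linear_combination (-(Ideal.Quotient.mk J) (C (g r)) *
            (Ideal.Quotient.mk J) (∏ x ∈ s.erase r, (w - C (x : ℂ)))) * h3
        rw [hq, map_sum, map_sum, Finset.sum_congr rfl h2, ← Finset.mul_sum, hg, mul_zero]
      have hq0 : q = 0 := by
        by_contra hne
        exact hcon q hne hqJ
      have h6 : q.eval (r0 : ℂ) = g r0 * ∏ r' ∈ s.erase r0, ((r0 : ℂ) - (r' : ℂ)) := by
        rw [hq, Polynomial.eval_finsetSum, Finset.sum_eq_single r0]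
        · simp [Polynomial.eval_prod]
        · intro r hr hne
          rw [Polynomial.eval_mul, Polynomial.eval_prod,
            Finset.prod_eq_zero (i := r0) (Finset.mem_erase.2 ⟨hne.symm, hr0⟩) (by simp), mul_zero]
        · exact fun h => absurd hr0 h
      rw [hq0, Polynomial.eval_zero] at h6
      rcases mul_eq_zero.1 h6.symm with h7 | h7
      · exact h7
      · obtain ⟨r', hr', h8⟩ := Finset.prod_eq_zero_iff.1 h7
        rw [sub_eq_zero] at h8
        exact absurd (by exact_mod_cast h8.symm) (Finset.ne_of_mem_erase hr')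
    have h2 := hli.cardinal_le_rank
    have h3 : Module.rank ℂ (MvPolynomial (Fin n) ℂ ⧸ J) ≤ Cardinal.aleph0 := by
      refine (LinearMap.rank_le_of_surjective (Ideal.Quotient.mkₐ ℂ J).toLinearMap
        (Ideal.Quotient.mkₐ_surjective ℂ J)).trans ?_
      rw [← (MvPolynomial.basisMonomials (Fin n) ℂ).mk_eq_rank'']
      exact Cardinal.mk_le_aleph0
    have h4 : Cardinal.mk ℝ ≤ Cardinal.aleph0 := h2.trans h3
    exact absurd h4 (not_le.2 (by rw [Cardinal.mk_real]; exact Cardinal.aleph0_lt_continuum))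
  -- remove the real roots
  obtain ⟨q, hq0, hqJ⟩ := h1
  have key : ∀ d : ℕ, ∀ q : Polynomial ℂ, q.natDegree = d → q ≠ 0 → Polynomial.aeval w q ∈ J →
      ∃ q : Polynomial ℂ, (∀ r : ℝ, q.eval (r : ℂ) ≠ 0) ∧ Polynomial.aeval w q ∈ J := by
    intro d
    induction d using Nat.strong_induction_on with
    | _ d ih =>
      intro q hd hq0 hqJ
      by_cases hr : ∀ r : ℝ, q.eval (r : ℂ) ≠ 0
      · exact ⟨q, hr, hqJ⟩
      · push Not at hr
        obtain ⟨r, hr⟩ := hr
        obtain ⟨q', hq'⟩ := Polynomial.dvd_iff_isRoot.2 hr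
        have hq'0 : q' ≠ 0 := by
          rintro rfl
          exact hq0 (by rw [hq', mul_zero])
        have hdeg : q'.natDegree < d := by
          rw [← hd, hq', Polynomial.natDegree_mul (Polynomial.X_sub_C_ne_zero _) hq'0,
            Polynomial.natDegree_X_sub_C]
          omega
        refine ih _ hdeg q' rfl hq'0 ?_
        have h5 : Polynomial.aeval w q = (w - C (r : ℂ)) * Polynomial.aeval w q' := by
          rw [hq']
          simp [MvPolynomial.algebraMap_eq]
        have h6 : Polynomial.aeval w q' = u r * Polynomial.aeval w q -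
            (u r * (w - C (r : ℂ)) - 1) * Polynomial.aeval w q' := by
          rw [h5]; ring
        rw [h6]
        exact J.sub_mem (J.mul_mem_left _ hqJ) (J.mul_mem_right _ (hu r))
  exact key _ q rfl hq0 hqJ

/-- complex conjugation on a totally real subspace is the restriction of a complex linear map -/
lemma exists_conj (K : Submodule ℝ (Cn n)) (hK : ∀ x ∈ K, Complex.I • x ∈ K → x = 0) :
    ∃ M : Cn n →ₗ[ℂ] (Fin n → ℂ), ∀ x ∈ K, ∀ i, M x i = starRingEnd ℂ (x i) := by
  classical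
  let b := Module.finBasis ℝ K
  set v : Fin (Module.finrank ℝ K) → Cn n := fun i => (b i : Cn n) with hv
  have hvK : ∀ i, v i ∈ K := fun i => (b i).2
  have hre : ∀ c : Fin (Module.finrank ℝ K) → ℝ, ∑ i, c i • v i = 0 → ∀ i, c i = 0 := by
    intro c hc
    have h1 : ∑ i, c i • b i = 0 := by
      apply Subtype.ext
      simpa [hv] using hc
    exact Fintype.linearIndependent_iff.1 b.linearIndependent c h1
  have hli : LinearIndependent ℂ v := by
    rw [Fintype.linearIndependent_iff]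
    intro g hg
    have hsum : ∑ i, g i • v i =
        (∑ i, (g i).re • v i) + Complex.I • (∑ i, (g i).im • v i) := by
      rw [Finset.smul_sum, ← Finset.sum_add_distrib]
      refine Finset.sum_congr rfl fun i _ => ?_
      conv_lhs => rw [← Complex.re_add_im (g i)]
      rw [add_smul, mul_comm, mul_smul]
      rfl
    have hA : (∑ i, (g i).re • v i) ∈ K := Submodule.sum_mem _ fun i _ => K.smul_mem _ (hvK i)
    have hB : (∑ i, (g i).im • v i) ∈ K := Submodule.sum_mem _ fun i _ => K.smul_mem _ (hvK i)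
    have hIB : Complex.I • (∑ i, (g i).im • v i) ∈ K := by
      have : Complex.I • (∑ i, (g i).im • v i) = -(∑ i, (g i).re • v i) := by
        rw [eq_neg_iff_add_eq_zero, add_comm, ← hsum, hg]
      rw [this]
      exact K.neg_mem hA
    have hB0 := hK _ hB hIB
    have hA0 : (∑ i, (g i).re • v i) = 0 := by
      rw [hsum, hB0, smul_zero, add_zero] at hg
      exact hg
    intro i
    exact Complex.ext (hre _ hA0 i) (hre _ hB0 i)
  let f : Submodule.span ℂ (range v) →ₗ[ℂ] (Fin n → ℂ) :=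
    (Module.Basis.span hli).constr ℂ (fun i j => starRingEnd ℂ (v i j))
  obtain ⟨M, hM⟩ := LinearMap.exists_extend f
  refine ⟨M, ?_⟩
  have hMv : ∀ i j, M (v i) j = starRingEnd ℂ (v i j) := by
    intro i j
    have h1 : M (v i) = f ((Module.Basis.span hli) i) := by
      rw [← hM]
      simp [Module.Basis.span_apply]
    rw [h1, Module.Basis.constr_basis]
  intro x hx j
  have hxs : x = ∑ i, (b.repr ⟨x, hx⟩ i) • v i := by
    have h := congrArg Subtype.val (b.sum_repr ⟨x, hx⟩)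
    rw [Submodule.coe_sum] at h
    exact h.symm
  have h2 : M x = ∑ i, ((b.repr ⟨x, hx⟩ i : ℝ) : ℂ) • M (v i) := by
    conv_lhs => rw [hxs]
    rw [map_sum]
    refine Finset.sum_congr rfl fun i _ => ?_
    rw [← map_smul]
    rfl
  rw [h2]
  conv_rhs => rw [hxs]
  simp only [Finset.sum_apply, Pi.smul_apply, smul_eq_mul, hMv]
  simp [Finset.sum_apply]

lemma ev_map_conj (p : MvPolynomial (Fin n) ℂ) (x : Fin n → ℂ) :
    eval (fun i => starRingEnd ℂ (x i)) (MvPolynomial.map (starRingEnd ℂ) p) =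
      starRingEnd ℂ (eval x p) := by
  rw [MvPolynomial.eval_map]
  have := MvPolynomial.eval₂_comp_left (starRingEnd ℂ) (RingHom.id ℂ) x p
  rw [MvPolynomial.eval₂_id] at this
  rw [this]
  rfl

/-- Separation from totally real subspaces. -/
lemma totally_real (K : Submodule ℝ (Cn n)) (hK : ∀ x ∈ K, Complex.I • x ∈ K → x = 0)
    (s : Finset (MvPolynomial (Fin n) ℂ)) (hs : ∀ x ∈ K, ∃ p ∈ s, ev x p ≠ 0) :
    ∃ P : MvPolynomial (Fin n) ℂ, (∀ z : Cn n, (∀ p ∈ s, ev z p = 0) → ev z P = 0) ∧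
      ∀ x ∈ K, ev x P ≠ 0 := by
  obtain ⟨M, hM⟩ := exists_conj K hK
  let st : MvPolynomial (Fin n) ℂ → MvPolynomial (Fin n) ℂ := fun p =>
    bind₁ (fun i => lp ((LinearMap.proj i).comp M)) (MvPolynomial.map (starRingEnd ℂ) p)
  have hst : ∀ p, ∀ x ∈ K, ev x (st p) = starRingEnd ℂ (ev x p) := by
    intro p x hx
    have h1 : ev x (st p) = eval (fun i => ev x (lp ((LinearMap.proj i).comp M)))
        (MvPolynomial.map (starRingEnd ℂ) p) := eval₂Hom_bind₁ _ _ _ _
    rw [h1]
    have h2 : (fun i => ev x (lp ((LinearMap.proj i).comp M))) =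
        fun i => starRingEnd ℂ (x i) := by
      funext i
      rw [ev_lp]
      simpa using hM x hx i
    rw [h2, ev_map_conj]
  refine ⟨∑ p ∈ s, p * st p, ?_, ?_⟩
  · intro z hz
    simp only [ev, map_sum, map_mul]
    exact Finset.sum_eq_zero fun p hp => by rw [show eval (fun i => z i) p = 0 from hz p hp, zero_mul]
  · intro x hx
    have h1 : ev x (∑ p ∈ s, p * st p) = ((∑ p ∈ s, Complex.normSq (ev x p) : ℝ) : ℂ) := by
      simp only [ev, map_sum, map_mul]
      rw [Complex.ofReal_sum]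
      refine Finset.sum_congr rfl fun p _ => ?_
      rw [show eval (fun i => x i) (st p) = starRingEnd ℂ (ev x p) from hst p x hx,
        Complex.mul_conj]
    rw [h1, Complex.ofReal_ne_zero]
    obtain ⟨p, hp, hne⟩ := hs x hx
    have h2 : 0 < ∑ p ∈ s, Complex.normSq (ev x p) :=
      Finset.sum_pos' (fun q _ => Complex.normSq_nonneg _) ⟨p, hp, Complex.normSq_pos.2 hne⟩
    exact h2.ne'

/-- the largest complex subspace of a real subspace -/
def cpart (K : Submodule ℝ (Cn n)) : Submodule ℂ (Cn n) where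
  carrier := {x | x ∈ K ∧ Complex.I • x ∈ K}
  add_mem' := by
    rintro a b ⟨ha, ha'⟩ ⟨hb, hb'⟩
    exact ⟨K.add_mem ha hb, by rw [smul_add]; exact K.add_mem ha' hb'⟩
  zero_mem' := ⟨K.zero_mem, by rw [smul_zero]; exact K.zero_mem⟩
  smul_mem' := by
    rintro c x ⟨hx, hx'⟩
    have h1 : c • x = c.re • x + c.im • (Complex.I • x) := by
      conv_lhs => rw [← Complex.re_add_im c]
      rw [add_smul, mul_smul]
      rfl
    have h2 : Complex.I • (c • x) = c.re • (Complex.I • x) + (-c.im) • x := by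
      rw [h1, smul_add, smul_comm Complex.I c.re x, smul_comm Complex.I c.im (Complex.I • x),
        smul_smul Complex.I Complex.I x, Complex.I_mul_I]
      simp
    refine ⟨?_, ?_⟩
    · rw [h1]
      exact K.add_mem (K.smul_mem _ hx) (K.smul_mem _ hx')
    · rw [h2]
      exact K.add_mem (K.smul_mem _ hx') (K.smul_mem _ hx)

lemma mem_cpart {K : Submodule ℝ (Cn n)} {x : Cn n} :
    x ∈ cpart K ↔ x ∈ K ∧ Complex.I • x ∈ K := Iff.rfl

/-- Nullstellensatz for a variety and a complex linear subspace. -/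
lemma zero_locus_span (s : Set (MvPolynomial (Fin n) ℂ)) (L : Submodule ℂ (Cn n)) (z : Cn n)
    (h : ∀ p ∈ Ideal.span s ⊔ Ideal.span (lp '' {l : Cn n →ₗ[ℂ] ℂ | L ≤ LinearMap.ker l}),
      ev z p = 0) : (∀ p ∈ s, ev z p = 0) ∧ z ∈ L := by
  refine ⟨fun p hp => h p (Submodule.mem_sup_left (Ideal.subset_span hp)), ?_⟩
  by_contra hz
  obtain ⟨l, hl, hLl⟩ := Submodule.exists_le_ker_of_notMem hz
  have := h (lp l) (Submodule.mem_sup_right (Ideal.subset_span ⟨l, hLl, rfl⟩))
  rw [ev_lp] at this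
  exact hl this

lemma ev_span (s : Set (MvPolynomial (Fin n) ℂ)) (z : Cn n) (h : ∀ p ∈ s, ev z p = 0)
    (p : MvPolynomial (Fin n) ℂ) (hp : p ∈ Ideal.span s) : ev z p = 0 := by
  have h1 : Ideal.span s ≤ RingHom.ker (eval (fun i => z i)) := Ideal.span_le.2 fun q hq => h q hq
  exact h1 hp

/-- Separation from `K = K₀ + ℝ f` with `K₀` complex linear. -/
lemma almost_complex (K : Submodule ℝ (Cn n)) (f : Cn n) (hf : f ∈ K)
    (hIf : Complex.I • f ∉ K) (hKf : ∀ g ∈ K, ∃ r : ℝ, g - r • f ∈ cpart K)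
    (s : Finset (MvPolynomial (Fin n) ℂ)) (hs : ∀ x ∈ K, ∃ p ∈ s, ev x p ≠ 0) :
    ∃ P : MvPolynomial (Fin n) ℂ, (∀ z : Cn n, (∀ p ∈ s, ev z p = 0) → ev z P = 0) ∧
      ∀ x ∈ K, ev x P ≠ 0 := by
  have hfc : f ∉ cpart K := fun h => hIf h.2
  obtain ⟨l0, hl0, hker⟩ := Submodule.exists_le_ker_of_notMem hfc
  set l : Cn n →ₗ[ℂ] ℂ := (l0 f)⁻¹ • l0 with hl
  have hlf : l f = 1 := by simp [hl, hl0]
  have hlK : ∀ x ∈ cpart K, l x = 0 := by
    intro x hx
    have : l0 x = 0 := hker hx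
    simp [hl, this]
  set L : Submodule ℂ (Cn n) := cpart K ⊔ Submodule.span ℂ {f} with hL
  have hKL : ∀ x ∈ K, x ∈ L := by
    intro x hx
    obtain ⟨r, hr⟩ := hKf x hx
    have : x = (x - r • f) + (r : ℂ) • f := by
      rw [show ((r : ℂ) • f) = r • f from rfl]
      abel
    rw [this]
    exact Submodule.add_mem_sup hr (Submodule.smul_mem _ _ (Submodule.mem_span_singleton_self f))
  set J := Ideal.span (s : Set (MvPolynomial (Fin n) ℂ)) ⊔
    Ideal.span (lp '' {l : Cn n →ₗ[ℂ] ℂ | L ≤ LinearMap.ker l}) with hJ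
  obtain ⟨q, hq, hqJ⟩ := exists_poly J (lp l) (by
    intro r
    refine eq_top_of_no_zero _ fun z => ?_
    by_contra hcon
    push Not at hcon
    obtain ⟨hzs, hzL⟩ := zero_locus_span (s : Set (MvPolynomial (Fin n) ℂ)) L z
      (fun p hp => hcon p (Submodule.mem_sup_left hp))
    have h1 : l z = r := by
      have := hcon (lp l - C (r : ℂ))
        (Submodule.mem_sup_right (Ideal.mem_span_singleton_self _))
      rw [ev_sub, ev_lp, ev, eval_C, sub_eq_zero] at this
      exact this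
    obtain ⟨k, hk, y, hy, rfl⟩ := Submodule.mem_sup.1 hzL
    obtain ⟨c, rfl⟩ := Submodule.mem_span_singleton.1 hy
    rw [map_add, hlK k hk, zero_add, map_smul, hlf, smul_eq_mul, mul_one] at h1
    have h2 : k + c • f ∈ K := by
      rw [h1]
      exact K.add_mem hk.1 (K.smul_mem r hf)
    obtain ⟨p, hp, hne⟩ := hs _ h2
    exact hne (hzs p hp))
  obtain ⟨P, hP, g, hg, hPg⟩ := Submodule.mem_sup.1 hqJ
  refine ⟨P, fun z hz => ev_span _ z (fun p hp => hz p hp) P hP, ?_⟩
  intro x hx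
  have hg0 : ev x g = 0 := by
    refine ev_span _ x ?_ g hg
    rintro _ ⟨m, hm, rfl⟩
    rw [ev_lp]
    exact hm (hKL x hx)
  obtain ⟨r, hr⟩ := hKf x hx
  have hlx : l x = r := by
    have h1 := hlK _ hr
    rw [map_sub, sub_eq_zero] at h1
    rw [h1, show r • f = (r : ℂ) • f from rfl, map_smul, hlf, smul_eq_mul, mul_one]
  have h2 : ev x P = q.eval (r : ℂ) := by
    have h3 : ev x (Polynomial.aeval (lp l) q) = q.eval (r : ℂ) := by
      have h4 : ev x (Polynomial.aeval (lp l) q) = Polynomial.aeval (ev x (lp l)) q := by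
        have := Polynomial.aeval_algHom_apply (MvPolynomial.aeval (fun i => x i) :
          MvPolynomial (Fin n) ℂ →ₐ[ℂ] ℂ) (lp l) q
        simpa [ev, MvPolynomial.aeval_eq_eval] using this.symm
      rw [h4, ev_lp, hlx]
      simp
    rw [← h3, ← hPg, ev_add, hg0, add_zero]
  rw [h2]
  exact hq r

/-- Separation from a complex linear subspace. -/
lemma complex_case (K : Submodule ℝ (Cn n)) (hK : ∀ x ∈ K, Complex.I • x ∈ K)
    (s : Finset (MvPolynomial (Fin n) ℂ)) (hs : ∀ x ∈ K, ∃ p ∈ s, ev x p ≠ 0) :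
    ∃ P : MvPolynomial (Fin n) ℂ, (∀ z : Cn n, (∀ p ∈ s, ev z p = 0) → ev z P = 0) ∧
      ∀ x ∈ K, ev x P ≠ 0 := by
  have htop : Ideal.span (s : Set (MvPolynomial (Fin n) ℂ)) ⊔
      Ideal.span (lp '' {l : Cn n →ₗ[ℂ] ℂ | cpart K ≤ LinearMap.ker l}) = ⊤ := by
    refine eq_top_of_no_zero _ fun z => ?_
    by_contra hcon
    push Not at hcon
    obtain ⟨hzs, hzL⟩ := zero_locus_span (s : Set (MvPolynomial (Fin n) ℂ)) (cpart K) z hcon
    obtain ⟨p, hp, hne⟩ := hs _ hzL.1
    exact hne (hzs p hp)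
  have h1 : (1 : MvPolynomial (Fin n) ℂ) ∈ Ideal.span (s : Set (MvPolynomial (Fin n) ℂ)) ⊔
      Ideal.span (lp '' {l : Cn n →ₗ[ℂ] ℂ | cpart K ≤ LinearMap.ker l}) := by
    rw [htop]; trivial
  obtain ⟨P, hP, g, hg, hPg⟩ := Submodule.mem_sup.1 h1
  refine ⟨P, fun z hz => ev_span _ z (fun p hp => hz p hp) P hP, ?_⟩
  intro x hx
  have hg0 : ev x g = 0 := by
    refine ev_span _ x ?_ g hg
    rintro _ ⟨m, hm, rfl⟩
    rw [ev_lp]
    exact hm (show x ∈ cpart K from ⟨hx, hK x hx⟩)
  have h2 : ev x P = 1 := by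
    have h3 : ev x (P + g) = 1 := by rw [hPg, ev, map_one]
    rwa [ev_add, hg0, add_zero] at h3
  rw [h2]
  exact one_ne_zero

end algebra

section failure

variable {n : ℕ}

/-- restriction of a polynomial to a line -/
lemma line_poly (P : MvPolynomial (Fin n) ℂ) (a b : Cn n) :
    ∃ p : Polynomial ℂ, ∀ t : ℂ, p.eval t = ev (a + t • b) P := by
  refine ⟨MvPolynomial.aeval
    (fun i => Polynomial.C (a i) + Polynomial.C (b i) * Polynomial.X) P, fun t => ?_⟩
  have h1 := MvPolynomial.comp_aeval_apply (R := ℂ) (Polynomial.aeval t : Polynomial ℂ →ₐ[ℂ] ℂ)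
    (f := fun i => Polynomial.C (a i) + Polynomial.C (b i) * Polynomial.X) P
  rw [← Polynomial.coe_aeval_eq_eval, h1, MvPolynomial.aeval_eq_eval]
  unfold ev
  congr 2
  funext i
  simp only [map_add, map_mul, Polynomial.aeval_C, Polynomial.aeval_X, PiLp.add_apply,
    PiLp.smul_apply, smul_eq_mul, Algebra.algebraMap_self, RingHom.id_apply]
  ring

lemma poly_zero (p : Polynomial ℂ) (h : ∀ r : ℝ, p.eval (r : ℂ) = 0) : p = 0 := by
  refine Polynomial.eq_zero_of_infinite_isRoot p
    (Set.Infinite.mono ?_ (Set.infinite_range_of_injective Complex.ofReal_injective))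
  rintro _ ⟨r, rfl⟩
  exact h r

/-- two polynomials which agree at the real points of a line agree on the line -/
lemma line_ext (P : MvPolynomial (Fin n) ℂ) (a a' b : Cn n)
    (h : ∀ r : ℝ, ev (a + (r : ℂ) • b) P = ev (a' + (r : ℂ) • b) P) (t : ℂ) :
    ev (a + t • b) P = ev (a' + t • b) P := by
  obtain ⟨p, hp⟩ := line_poly P a b
  obtain ⟨p', hp'⟩ := line_poly P a' b
  have h0 : p - p' = 0 := poly_zero _ fun r => by
    rw [Polynomial.eval_sub, hp, hp', h r, sub_self]
  rw [← hp, ← hp', sub_eq_zero.1 h0]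

/-- A polynomial without zeros on `K` is constant along complex lines in `K`. -/
lemma const_along (K : Submodule ℝ (Cn n)) (e f g : Cn n) (he : e ∈ cpart K) (hf : f ∈ K)
    (hg : g ∈ K) (P : MvPolynomial (Fin n) ℂ) (hP : ∀ x ∈ K, ev x P ≠ 0) (z x y : ℂ) :
    ev (z • e + x • f + y • g) P = ev (x • f + y • g) P := by
  have h1 : ∀ x y : ℝ, ev (z • e + (x : ℂ) • f + (y : ℂ) • g) P =
      ev ((x : ℂ) • f + (y : ℂ) • g) P := by
    intro x y
    set a : Cn n := (x : ℂ) • f + (y : ℂ) • g with ha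
    have haK : a ∈ K := K.add_mem (K.smul_mem x hf) (K.smul_mem y hg)
    obtain ⟨p, hp⟩ := line_poly P a e
    have hroot : ∀ t : ℂ, p.eval t ≠ 0 := by
      intro t
      rw [hp]
      exact hP _ (K.add_mem haK ((cpart K).smul_mem t he).1)
    have hdeg : p.degree = 0 := by
      by_contra hne
      obtain ⟨t, ht⟩ := IsAlgClosed.exists_root p hne
      exact hroot t ht
    rw [Polynomial.eq_C_of_degree_eq_zero hdeg] at hp
    have h2 := hp z
    have h3 := hp 0
    rw [Polynomial.eval_C] at h2 h3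
    rw [zero_smul, add_zero] at h3
    rw [← h3, h2]
    congr 1
    rw [ha]
    abel
  have h2 : ∀ (x : ℂ) (y : ℝ), ev (z • e + x • f + (y : ℂ) • g) P =
      ev (x • f + (y : ℂ) • g) P := by
    intro x y
    have := line_ext P (z • e + (y : ℂ) • g) ((y : ℂ) • g) f (fun r => by
      have := h1 r y
      rw [show z • e + (y : ℂ) • g + (r : ℂ) • f = z • e + (r : ℂ) • f + (y : ℂ) • g by abel,
        show (y : ℂ) • g + (r : ℂ) • f = (r : ℂ) • f + (y : ℂ) • g by abel]
      exact this) x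
    rw [show z • e + x • f + (y : ℂ) • g = z • e + (y : ℂ) • g + x • f by abel,
      show x • f + (y : ℂ) • g = (y : ℂ) • g + x • f by abel]
    exact this
  exact line_ext P (z • e + x • f) (x • f) g (fun r => h2 x r) y

lemma split_smul (f g : Cn n) (ζ : ℂ) :
    ζ • f + (Complex.I * ζ) • g =
      (ζ.re • f - ζ.im • g) + Complex.I • (ζ.im • f + ζ.re • g) := by
  ext i
  simp only [PiLp.add_apply, PiLp.sub_apply, PiLp.smul_apply, smul_eq_mul, Complex.real_smul]
  conv_lhs => rw [← Complex.re_add_im ζ]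
  ring_nf
  rw [Complex.I_sq]
  ring

lemma lin_indep (K : Submodule ℝ (Cn n)) (e f g : Cn n) (he0 : e ≠ 0) (he : e ∈ cpart K)
    (hf : f ∈ K) (hg : g ∈ K)
    (hfg : ∀ x y : ℝ, Complex.I • (x • f + y • g) ∈ K → x = 0 ∧ y = 0) :
    LinearIndependent ℂ ![e, f, g] := by
  rw [Fintype.linearIndependent_iff]
  intro c hc
  rw [Fin.sum_univ_three] at hc
  simp only [Matrix.cons_val_zero, Matrix.cons_val_one, Matrix.cons_val] at hc
  have hs : c 1 • f + c 2 • g = ((c 1).re • f + (c 2).re • g) +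
      Complex.I • ((c 1).im • f + (c 2).im • g) := by
    ext i
    simp only [PiLp.add_apply, PiLp.smul_apply, smul_eq_mul, Complex.real_smul]
    conv_lhs => rw [← Complex.re_add_im (c 1), ← Complex.re_add_im (c 2)]
    ring
  have h1 : c 1 • f + c 2 • g ∈ cpart K := by
    have : c 1 • f + c 2 • g = (-c 0) • e := by
      rw [neg_smul, eq_neg_iff_add_eq_zero, ← hc]
      abel
    rw [this]
    exact (cpart K).smul_mem _ he
  have hA : (c 1).re • f + (c 2).re • g ∈ K := K.add_mem (K.smul_mem _ hf) (K.smul_mem _ hg)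
  have h2 : Complex.I • ((c 1).im • f + (c 2).im • g) ∈ K := by
    have := K.sub_mem h1.1 hA
    rwa [hs, add_sub_cancel_left] at this
  obtain ⟨h3, h4⟩ := hfg _ _ h2
  have h5 : c 1 • f + c 2 • g = (c 1).re • f + (c 2).re • g := by
    rw [hs, h3, h4]
    simp
  have h6 := h1.2
  rw [h5] at h6
  obtain ⟨h7, h8⟩ := hfg _ _ h6
  have hc1 : c 1 = 0 := Complex.ext h7 h3
  have hc2 : c 2 = 0 := Complex.ext h8 h4
  have hc0 : c 0 = 0 := by
    rw [hc1, hc2, zero_smul, zero_smul, add_zero, add_zero] at hc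
    exact (smul_eq_zero.1 hc).resolve_right he0
  intro i
  fin_cases i
  · exact hc0
  · exact hc1
  · exact hc2

/-- the points of the bad variety -/
noncomputable def v (e f g : Cn n) (k : ℕ) (ζ : ℂ) : Cn n :=
  (ζ ^ k)⁻¹ • e + ζ • f + (Complex.I * ζ) • g

lemma isVariety_v (e f g : Cn n) (h : LinearIndependent ℂ ![e, f, g]) (k : ℕ) :
    IsVariety {z | ∃ ζ : ℂ, ζ ≠ 0 ∧ z = v e f g (k + 1) ζ} ∧
      ∃ l : Cn n →ₗ[ℂ] ℂ, ∀ ζ, l (v e f g (k + 1) ζ) = (ζ ^ (k + 1))⁻¹ := by
  classical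
  obtain ⟨Λ, hΛ⟩ := LinearMap.exists_extend
    ((Module.Basis.span h).constr ℂ (fun i : Fin 3 => (Pi.single i 1 : Fin 3 → ℂ)))
  have hΛi : ∀ i, Λ (![e, f, g] i) = Pi.single i 1 := by
    intro i
    have h1 : Λ (![e, f, g] i) = ((Module.Basis.span h).constr ℂ
        (fun i : Fin 3 => (Pi.single i 1 : Fin 3 → ℂ))) ((Module.Basis.span h) i) := by
      rw [← hΛ]
      simp [Module.Basis.span_apply]
    rw [h1, Module.Basis.constr_basis]
  have he := hΛi 0
  have hf := hΛi 1
  have hg := hΛi 2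
  simp only [Matrix.cons_val_zero, Matrix.cons_val_one, Matrix.cons_val] at he hf hg
  set le : Cn n →ₗ[ℂ] ℂ := (LinearMap.proj 0).comp Λ with hle
  set lf : Cn n →ₗ[ℂ] ℂ := (LinearMap.proj 1).comp Λ with hlf
  set lg : Cn n →ₗ[ℂ] ℂ := (LinearMap.proj 2).comp Λ with hlg
  have hle' : ∀ a b c : ℂ, le (a • e + b • f + c • g) = a := by
    intro a b c
    simp [hle, he, hf, hg]
  have hlf' : ∀ a b c : ℂ, lf (a • e + b • f + c • g) = b := by
    intro a b c
    simp [hlf, he, hf, hg]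
  have hlg' : ∀ a b c : ℂ, lg (a • e + b • f + c • g) = c := by
    intro a b c
    simp [hlg, he, hf, hg]
  refine ⟨?_, le, fun ζ => hle' _ _ _⟩
  set W : Submodule ℂ (Cn n) := Submodule.span ℂ {e, f, g} with hW
  set T : Set (MvPolynomial (Fin n) ℂ) := (lp '' {l : Cn n →ₗ[ℂ] ℂ | W ≤ LinearMap.ker l}) ∪
    {lp lg - C Complex.I * lp lf, lp le * lp lf ^ (k + 1) - 1} with hT
  have hzero : ∀ z : Cn n, (∀ p ∈ T, ev z p = 0) ↔ ∃ ζ : ℂ, ζ ≠ 0 ∧ z = v e f g (k + 1) ζ := by
    intro z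
    constructor
    · intro hz
      have hzW : z ∈ W := by
        by_contra hz'
        obtain ⟨l, hl, hWl⟩ := Submodule.exists_le_ker_of_notMem hz'
        have := hz (lp l) (Or.inl ⟨l, hWl, rfl⟩)
        rw [ev_lp] at this
        exact hl this
      obtain ⟨a, b, c, rfl⟩ : ∃ a b c : ℂ, z = a • e + b • f + c • g := by
        rw [hW] at hzW
        obtain ⟨a, b, c, h⟩ := Submodule.mem_span_triple.1 hzW
        exact ⟨a, b, c, h.symm⟩
      have h1 := hz (lp lg - C Complex.I * lp lf) (Or.inr (by simp))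
      have h2 := hz (lp le * lp lf ^ (k + 1) - 1) (Or.inr (by simp))
      rw [ev_sub, ev_mul, ev_lp, ev_lp, hlf', hlg', ev, eval_C, sub_eq_zero] at h1
      have h3 : ev (a • e + b • f + c • g) (lp lf ^ (k + 1)) = b ^ (k + 1) := by
        rw [ev, map_pow]
        exact congrArg (· ^ (k + 1)) ((ev_lp _ _).trans (hlf' _ _ _))
      rw [ev_sub, ev_mul, h3, ev_lp, hle', ev, map_one, sub_eq_zero] at h2
      have hb : b ≠ 0 := by
        rintro rfl
        rw [zero_pow (by omega), mul_zero] at h2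
        exact zero_ne_one h2
      refine ⟨b, hb, ?_⟩
      rw [v, h1, eq_inv_of_mul_eq_one_left h2]
    · rintro ⟨ζ, hζ, rfl⟩ p hp
      rcases hp with ⟨l, hl, rfl⟩ | hp
      · rw [ev_lp]
        refine hl ?_
        have h1 : e ∈ W := Submodule.subset_span (by simp)
        have h2 : f ∈ W := Submodule.subset_span (by simp)
        have h3 : g ∈ W := Submodule.subset_span (by simp)
        exact W.add_mem (W.add_mem (W.smul_mem _ h1) (W.smul_mem _ h2)) (W.smul_mem _ h3)
      · rcases hp with rfl | hp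
        · rw [ev_sub, ev_mul, ev_lp, ev_lp, v, hlf', hlg', ev, eval_C, sub_self]
        · rw [mem_singleton_iff] at hp
          subst hp
          have h3 : ev (v e f g (k + 1) ζ) (lp lf ^ (k + 1)) = ζ ^ (k + 1) := by
            rw [ev, map_pow]
            exact congrArg (· ^ (k + 1)) ((ev_lp _ _).trans (hlf' _ _ _))
          rw [ev_sub, ev_mul, h3, ev_lp, v, hle', ev, map_one,
            inv_mul_cancel₀ (pow_ne_zero _ hζ), sub_self]
  obtain ⟨s, hsT, hs⟩ := (Submodule.fg_span_iff_fg_span_finset_subset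
    (R := MvPolynomial (Fin n) ℂ) T).1 (IsNoetherian.noetherian _)
  refine ⟨s, ?_⟩
  ext z
  rw [mem_ofPred_eq, ← hzero z, mem_ofPred_eq]
  constructor
  · intro h p hp
    exact h p (hsT hp)
  · intro h p hp
    have h1 : p ∈ Submodule.span (MvPolynomial (Fin n) ℂ) (s : Set (MvPolynomial (Fin n) ℂ)) := by
      rw [← hs]
      exact Submodule.subset_span hp
    exact ev_span _ z (fun q hq => h q hq) p h1

lemma staysAway_v (K : Submodule ℝ (Cn n)) (e f g : Cn n) (he : e ∈ cpart K) (hf : f ∈ K)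
    (hg : g ∈ K) (hfg : ∀ x y : ℝ, Complex.I • (x • f + y • g) ∈ K → x = 0 ∧ y = 0)
    (k : ℕ) (N : ℝ) (hN : 0 < N) (hk : 1 ≤ k * N) (l : Cn n →ₗ[ℂ] ℂ)
    (hl : ∀ ζ, l (v e f g k ζ) = (ζ ^ k)⁻¹) :
    StaysAway {z | ∃ ζ : ℂ, ζ ≠ 0 ∧ z = v e f g k ζ} (K : Set (Cn n)) N := by
  let Φ : Cn n →ₗ[ℝ] (Fin (Module.finrank ℝ (Cn n ⧸ K)) → ℝ) :=
    (Module.finBasis ℝ (Cn n ⧸ K)).equivFun.toLinearMap.comp K.mkQ
  have hΦ : ∀ x, Φ x = 0 ↔ x ∈ K := by
    intro x
    simp only [Φ, LinearMap.comp_apply, LinearEquiv.coe_coe, LinearEquiv.map_eq_zero_iff,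
      Submodule.mkQ_apply, Submodule.Quotient.mk_eq_zero]
  let A : ℂ →ₗ[ℝ] Cn n :=
    { toFun := fun ζ => Complex.I • (ζ.im • f + ζ.re • g)
      map_add' := by
        intro a b
        simp only [Complex.add_im, Complex.add_re, add_smul, smul_add]
        abel
      map_smul' := by
        intro r a
        simp only [Complex.smul_im, Complex.smul_re, smul_eq_mul, mul_smul, RingHom.id_apply]
        rw [← smul_add, smul_comm] }
  obtain ⟨K0, hK0, hanti⟩ := (Φ.comp A).exists_antilipschitzWith (by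
    rw [LinearMap.ker_eq_bot']
    intro ζ hζ
    have h1 : Complex.I • (ζ.im • f + ζ.re • g) ∈ K := (hΦ _).1 hζ
    obtain ⟨h2, h3⟩ := hfg _ _ h1
    exact Complex.ext h3 h2)
  let Φc := LinearMap.toContinuousLinearMap Φ
  let lc := LinearMap.toContinuousLinearMap l
  set C1 : ℝ := K0 * (‖Φc‖ + 1) with hC1
  set C2 : ℝ := ‖lc‖ + 1 with hC2
  have hC1pos : 0 < C1 := by
    have : (0 : ℝ) < K0 := by exact_mod_cast hK0
    positivity
  have hC2pos : 1 ≤ C2 := by
    have := norm_nonneg lc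
    linarith
  refine ⟨1 / (C1 * C2 ^ N), by positivity, ?_⟩
  rintro _ ⟨ζ, hζ, rfl⟩
  have hζ0 : 0 < ‖ζ‖ := norm_pos_iff.2 hζ
  -- distance
  have hdist : ‖ζ‖ / C1 ≤ infDist (v e f g k ζ) (K : Set (Cn n)) := by
    rw [le_infDist ⟨0, K.zero_mem⟩]
    intro y hy
    rw [div_le_iff₀ hC1pos]
    have h1 : ‖ζ‖ ≤ K0 * ‖(Φ.comp A) ζ‖ := by
      have := hanti.le_mul_dist ζ 0
      simpa using this
    have h2 : (Φ.comp A) ζ = Φ (v e f g k ζ - y) := by
      have h3 : v e f g k ζ - y = ((ζ ^ k)⁻¹ • e + (ζ.re • f - ζ.im • g) - y) + A ζ := by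
        rw [v, add_assoc, split_smul]
        simp only [A, LinearMap.coe_mk, AddHom.coe_mk]
        abel
      have h4 : (ζ ^ k)⁻¹ • e + (ζ.re • f - ζ.im • g) - y ∈ K :=
        K.sub_mem (K.add_mem ((cpart K).smul_mem _ he).1
          (K.sub_mem (K.smul_mem _ hf) (K.smul_mem _ hg))) hy
      rw [h3, map_add, (hΦ _).2 h4, zero_add]
      rfl
    have h3 : ‖Φ (v e f g k ζ - y)‖ ≤ ‖Φc‖ * ‖v e f g k ζ - y‖ := Φc.le_opNorm _
    rw [dist_eq_norm]
    calc ‖ζ‖ ≤ K0 * ‖(Φ.comp A) ζ‖ := h1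
      _ ≤ K0 * (‖Φc‖ * ‖v e f g k ζ - y‖) := by rw [h2]; gcongr
      _ ≤ ‖v e f g k ζ - y‖ * C1 := by
        rw [hC1]
        have : 0 ≤ (K0 : ℝ) * ‖v e f g k ζ - y‖ := by positivity
        nlinarith
  -- size
  have hsize : (‖ζ‖ ^ k)⁻¹ ≤ C2 * ‖v e f g k ζ‖ := by
    have h1 : ‖l (v e f g k ζ)‖ ≤ ‖lc‖ * ‖v e f g k ζ‖ := lc.le_opNorm _
    rw [hl, norm_inv, norm_pow] at h1
    refine h1.trans ?_
    gcongr
    linarith
  have hbig : 1 / ‖ζ‖ ≤ (C2 * (1 + ‖v e f g k ζ‖)) ^ N := by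
    have hC2n : 0 ≤ ‖v e f g k ζ‖ := norm_nonneg _
    rcases le_or_gt 1 ‖ζ‖ with h | h
    · have h1 : 1 / ‖ζ‖ ≤ 1 := by
        rw [div_le_one hζ0]
        exact h
      refine h1.trans (Real.one_le_rpow ?_ hN.le)
      nlinarith
    · have h1 : (1 : ℝ) ≤ ‖ζ‖⁻¹ := (one_le_inv₀ hζ0).2 h.le
      calc 1 / ‖ζ‖ = (‖ζ‖⁻¹) ^ (1 : ℝ) := by rw [Real.rpow_one, one_div]
        _ ≤ (‖ζ‖⁻¹) ^ ((k : ℝ) * N) := Real.rpow_le_rpow_of_exponent_le h1 hk
        _ = ((‖ζ‖ ^ k)⁻¹) ^ N := by
          rw [Real.rpow_mul (inv_nonneg.2 hζ0.le), Real.rpow_natCast, inv_pow]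
        _ ≤ (C2 * (1 + ‖v e f g k ζ‖)) ^ N := by
          refine Real.rpow_le_rpow (by positivity) (hsize.trans ?_) hN.le
          nlinarith
  rw [Real.mul_rpow (by linarith) (by positivity)] at hbig
  have hC2N : 0 < C2 ^ N := by positivity
  have hpos : 0 ≤ (1 + ‖v e f g k ζ‖) ^ N := by positivity
  calc 1 / (C1 * C2 ^ N) = (‖ζ‖ / C1) * ((1 / ‖ζ‖) / C2 ^ N) := by
        field_simp
    _ ≤ (‖ζ‖ / C1) * ((1 + ‖v e f g k ζ‖) ^ N) := by
        refine mul_le_mul_of_nonneg_left ?_ (by positivity)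
        rw [div_le_iff₀ hC2N]
        linarith
    _ ≤ infDist (v e f g k ζ) (K : Set (Cn n)) * (1 + ‖v e f g k ζ‖) ^ N :=
        mul_le_mul_of_nonneg_right hdist hpos

end failure

/-- **Separation from real linear subspaces.**  (1) For a real linear subspace `K` of `ℂⁿ` and an
exponent `N > 0`, separation holds iff there are no `e, f, g ∈ K` with `e ≠ 0`, `i e ∈ K`, such that
no nontrivial real combination of `f, g` lies in `i K`; i.e. iff `K` contains no complex line or
`dim_ℝ K / (K ∩ i K) ≤ 1`.  (2) For `n ≥ 3` there is a real linear subspace of `ℂⁿ` for which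
separation fails for every exponent `N > 0`. -/
theorem result {n : ℕ} :
    (∀ (K : Submodule ℝ (Cn n)) (N : ℝ), 0 < N →
      (SeparationHolds (K : Set (Cn n)) N ↔
        ¬ ∃ e ∈ K, ∃ f ∈ K, ∃ g ∈ K, e ≠ 0 ∧ Complex.I • e ∈ K ∧
          ∀ x y : ℝ, Complex.I • (x • f + y • g) ∈ K → x = 0 ∧ y = 0)) ∧
    (3 ≤ n → ∃ K : Submodule ℝ (Cn n), ∀ N : ℝ, 0 < N →
      ¬ SeparationHolds (K : Set (Cn n)) N) := by
  have main : ∀ (K : Submodule ℝ (Cn n)) (N : ℝ), 0 < N →
      (SeparationHolds (K : Set (Cn n)) N ↔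
        ¬ ∃ e ∈ K, ∃ f ∈ K, ∃ g ∈ K, e ≠ 0 ∧ Complex.I • e ∈ K ∧
          ∀ x y : ℝ, Complex.I • (x • f + y • g) ∈ K → x = 0 ∧ y = 0) := by
    intro K N hN
    constructor
    · rintro hsep ⟨e, heK, f, hf, g, hg, he0, hIe, hfg⟩
      have he : e ∈ cpart K := ⟨heK, hIe⟩
      obtain ⟨k, hk⟩ := exists_nat_ge (1 / N)
      have hk' : 1 ≤ ((k + 1 : ℕ) : ℝ) * N := by
        rw [div_le_iff₀ hN] at hk
        push_cast
        nlinarith
      obtain ⟨hvar, l, hl⟩ := isVariety_v e f g (lin_indep K e f g he0 he hf hg hfg) k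
      obtain ⟨P, -, hVP, hPK⟩ := hsep _ hvar ⟨v e f g (k + 1) 1, 1, one_ne_zero, rfl⟩ (by
          intro huniv
          have h0 : (0 : Cn n) ∈ {z | ∃ ζ : ℂ, ζ ≠ 0 ∧ z = v e f g (k + 1) ζ} := by
            rw [huniv]; trivial
          obtain ⟨ζ, hζ, h1⟩ := h0
          have h2 := hl ζ
          rw [← h1, map_zero] at h2
          exact inv_ne_zero (pow_ne_zero _ hζ) h2.symm)
        (staysAway_v K e f g he hf hg hfg (k + 1) N hN hk' l hl)
      have hP : ∀ x ∈ K, ev x P ≠ 0 := by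
        intro x hx h0
        have : x ∈ Zero P ∩ (K : Set (Cn n)) := ⟨h0, hx⟩
        rw [hPK] at this
        exact this
      obtain ⟨p, hp⟩ := line_poly P 0 (f + Complex.I • g)
      have hp0 : p = 0 := by
        refine Polynomial.eq_zero_of_infinite_isRoot p
          (Set.Infinite.mono (s := {0}ᶜ) ?_ (Set.Finite.infinite_compl (Set.finite_singleton 0)))
        intro ζ hζ
        have h1 : ev (v e f g (k + 1) ζ) P = 0 := hVP ⟨ζ, hζ, rfl⟩
        rw [v, const_along K e f g he hf hg P hP] at h1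
        show p.eval ζ = 0
        rw [hp, zero_add, smul_add, smul_smul, mul_comm ζ Complex.I]
        exact h1
      have h2 := hp 0
      rw [hp0, Polynomial.eval_zero, zero_smul, add_zero] at h2
      exact hP 0 K.zero_mem h2.symm
    · intro hno V hV hVne _ hstay
      obtain ⟨s, rfl⟩ := hV
      have hs : ∀ x ∈ K, ∃ p ∈ s, ev x p ≠ 0 := by
        intro x hx
        by_contra hcon
        push Not at hcon
        obtain ⟨c, hc, h⟩ := hstay
        have h1 := h x hcon
        rw [infDist_zero_of_mem (show x ∈ (K : Set (Cn n)) from hx), zero_mul] at h1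
        linarith
      have hkey : ∃ P : MvPolynomial (Fin n) ℂ,
          (∀ z : Cn n, (∀ p ∈ s, ev z p = 0) → ev z P = 0) ∧ ∀ x ∈ K, ev x P ≠ 0 := by
        by_cases h1 : ∀ x ∈ K, Complex.I • x ∈ K → x = 0
        · exact totally_real K h1 s hs
        · push Not at h1
          obtain ⟨e, he, hIe, he0⟩ := h1
          by_cases h2 : ∀ x ∈ K, Complex.I • x ∈ K
          · exact complex_case K h2 s hs
          · push Not at h2
            obtain ⟨f, hf, hIf⟩ := h2
            refine almost_complex K f hf hIf ?_ s hs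
            intro g hg
            have h3 : ¬ ∀ x y : ℝ, Complex.I • (x • f + y • g) ∈ K → x = 0 ∧ y = 0 :=
              fun h => hno ⟨e, he, f, hf, g, hg, he0, hIe, h⟩
            push Not at h3
            obtain ⟨x, y, hxy, hne⟩ := h3
            have hy : y ≠ 0 := by
              intro hy
              have hx : x ≠ 0 := fun hx => hne hx hy
              rw [hy, zero_smul, add_zero] at hxy
              have h4 := K.smul_mem x⁻¹ hxy
              rw [smul_comm, smul_smul, inv_mul_cancel₀ hx, one_smul] at h4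
              exact hIf h4
            refine ⟨-(x / y), ?_⟩
            have h5 : g - (-(x / y)) • f = y⁻¹ • (x • f + y • g) := by
              rw [smul_add, smul_smul, smul_smul, inv_mul_cancel₀ hy, one_smul, neg_smul,
                sub_neg_eq_add, div_eq_inv_mul, add_comm]
            rw [h5]
            refine ⟨K.smul_mem _ (K.add_mem (K.smul_mem _ hf) (K.smul_mem _ hg)), ?_⟩
            rw [smul_comm]
            exact K.smul_mem _ hxy
      obtain ⟨P, hP1, hP2⟩ := hkey
      refine ⟨P, ?_, fun z hz => hP1 z hz, ?_⟩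
      · rintro c rfl
        obtain ⟨z, hz⟩ := hVne
        have h1 := hP1 z hz
        have h2 := hP2 0 K.zero_mem
        rw [ev, eval_C] at h1 h2
        exact h2 h1
      · ext x
        simp only [mem_inter_iff, mem_empty_iff_false, iff_false, not_and]
        exact fun h1 h2 => hP2 x h2 h1
  refine ⟨main, fun hn => ?_⟩
  let K : Submodule ℝ (Cn n) :=
    { carrier := {z | (z ⟨1, by omega⟩).im = 0 ∧ (z ⟨2, by omega⟩).im = 0}
      add_mem' := by
        rintro a b ⟨h1, h2⟩ ⟨h3, h4⟩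
        simp [h1, h2, h3, h4]
      zero_mem' := by simp
      smul_mem' := by
        rintro c x ⟨h1, h2⟩
        simp [h1, h2] }
  refine ⟨K, fun N hN => ?_⟩
  rw [main K N hN, not_not]
  have hmem : ∀ z : Cn n, z ∈ K ↔ (z ⟨1, by omega⟩).im = 0 ∧ (z ⟨2, by omega⟩).im = 0 :=
    fun z => Iff.rfl
  refine ⟨EuclideanSpace.single ⟨0, by omega⟩ 1, ?_, EuclideanSpace.single ⟨1, by omega⟩ 1, ?_,
    EuclideanSpace.single ⟨2, by omega⟩ 1, ?_, ?_, ?_, ?_⟩
  · rw [hmem]; simp
  · rw [hmem]; simp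
  · rw [hmem]; simp
  · intro h
    have := congrArg (fun z : Cn n => z ⟨0, by omega⟩) h
    simp at this
  · rw [hmem]; simp
  · intro x y h
    rw [hmem] at h
    simpa using h

end Pool.Agent.Results.MP_c229cb_an.RealSubspaces
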